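import Pool.Agent.Helper53.FM.Defs
import Pool.Agent.Helper42.WR.WindowBound

/-!
# FM-B7: numerics of the cross sums
-/

set_option autoImplicit false
set_option linter.unusedVariables false

namespace Pool.Agent.Helper39.FM

open Finset
open Pool.Agent.Helper53.WR
open Pool.Agent.Helper48.FB (win crossF Cs WinLe Fs Dk LR zR dens)
open Pool.Agent.Helper53.FM

/-- The common numerical part. -/
theorem fin_bound {a u e d W N : ℕ} (ha : 1 ≤ a) (he : 1 ≤ e) (hN : N * 4096 ≤ 2 ^ (6 * a))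
    (hW : 2 ^ (e + d / 2) * ((20 * a) * 2 ^ (4 * u + 8 * e) * W) ≤ 2 ^ (8 * u + 64 * e)) :
    (N : ℝ) * 4096 * (Real.exp (2 ^ (e + d / 2) *
        (((20 * a : ℕ) : ℝ) * ((2 ^ (4 * u + 8 * e) : ℕ) : ℝ) * W /
          ((2 ^ (8 * u + 64 * e) : ℕ) : ℝ))) / (2 ^ (e + d / 2)) ^ tD a e d) < 1 / 8 := by
  have hY : (0 : ℝ) < ((2 ^ (8 * u + 64 * e) : ℕ) : ℝ) := by positivity
  have hWr : (2 : ℝ) ^ (e + d / 2) *
      (((20 * a : ℕ) : ℝ) * ((2 ^ (4 * u + 8 * e) : ℕ) : ℝ) * W) ≤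
        ((2 ^ (8 * u + 64 * e) : ℕ) : ℝ) := by
    have := (Nat.cast_le (α := ℝ)).2 hW
    push_cast at this ⊢
    exact this
  have h1 : (2 : ℝ) ^ (e + d / 2) * (((20 * a : ℕ) : ℝ) * ((2 ^ (4 * u + 8 * e) : ℕ) : ℝ) * W /
      ((2 ^ (8 * u + 64 * e) : ℕ) : ℝ)) ≤ 1 := by
    rw [← mul_div_assoc, div_le_one hY]
    exact hWr
  have h2 : Real.exp (2 ^ (e + d / 2) *
      (((20 * a : ℕ) : ℝ) * ((2 ^ (4 * u + 8 * e) : ℕ) : ℝ) * W /
        ((2 ^ (8 * u + 64 * e) : ℕ) : ℝ))) ≤ 3 := by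
    refine (Real.exp_le_exp.2 h1).trans ?_
    have := Real.exp_one_lt_d9
    linarith
  have h3 : 22 * a ≤ (e + d / 2) * tD a e d := by
    unfold tD
    have hpos : 0 < e + d := by omega
    have e1 := Nat.div_add_mod (44 * a) (e + d)
    have e2 := Nat.mod_lt (44 * a) hpos
    set k := 44 * a / (e + d) with hk
    have e3 : e + d ≤ 2 * (e + d / 2) := by omega
    have e4 : (e + d) * (k + 1) ≤ 2 * (e + d / 2) * (k + 1) := Nat.mul_le_mul_right _ e3
    have e5 : (e + d) * (k + 1) = (e + d) * k + (e + d) := by ring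
    have e6 : 2 * (e + d / 2) * (k + 1) = 2 * ((e + d / 2) * (k + 1)) := by ring
    omega
  have h4 : (2 : ℝ) ^ (22 * a) ≤ (2 ^ (e + d / 2)) ^ tD a e d := by
    rw [← pow_mul]
    exact pow_le_pow_right₀ (by norm_num) h3
  have h5 : (N : ℝ) * 4096 ≤ 2 ^ (6 * a) := by exact_mod_cast hN
  have h6 : (0 : ℝ) < 2 ^ (22 * a) := by positivity
  have h7 : Real.exp (2 ^ (e + d / 2) *
        (((20 * a : ℕ) : ℝ) * ((2 ^ (4 * u + 8 * e) : ℕ) : ℝ) * W /
          ((2 ^ (8 * u + 64 * e) : ℕ) : ℝ))) / (2 ^ (e + d / 2)) ^ tD a e d ≤ 3 / 2 ^ (22 * a) :=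
    div_le_div₀ (by norm_num) h2 h6 h4
  have h8 : (N : ℝ) * 4096 * (Real.exp (2 ^ (e + d / 2) *
        (((20 * a : ℕ) : ℝ) * ((2 ^ (4 * u + 8 * e) : ℕ) : ℝ) * W /
          ((2 ^ (8 * u + 64 * e) : ℕ) : ℝ))) / (2 ^ (e + d / 2)) ^ tD a e d) ≤
        2 ^ (6 * a) * (3 / 2 ^ (22 * a)) :=
    mul_le_mul h5 h7 (by positivity) (by positivity)
  refine h8.trans_lt ?_
  have h9 : (2 : ℝ) ^ (22 * a) = 2 ^ (6 * a) * 2 ^ (16 * a) := by
    rw [← pow_add]
    congr 1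
    ring
  have h10 : (2 : ℝ) ^ 16 ≤ 2 ^ (16 * a) := pow_le_pow_right₀ (by norm_num) (by omega)
  have h11 : (2 : ℝ) ^ (6 * a) * (3 / 2 ^ (22 * a)) = 3 / 2 ^ (16 * a) := by
    rw [h9]
    have : (2 : ℝ) ^ (6 * a) ≠ 0 := by positivity
    field_simp
  rw [h11, div_lt_div_iff₀ (by positivity) (by norm_num)]
  norm_num at h10 ⊢
  linarith

/-- FM-B7 (numerics of the cross sums). `W` bounds the windows of `T` relevant for `n`. -/
theorem cross_numeric {a u u' e w F q : ℕ} (T : Finset ℕ) (e300 : 300 ≤ e) (eu : 100 * e ≤ u)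
    (ua : 100 * u ≤ a) (uu : 6 * u' ≤ 7 * u) (h20 : 20 * a ≤ 2 ^ e) (hw : w + 60 ≤ 20 * e)
    (hq1 : 2 ^ a < q) (hq2 : q ≤ 2 ^ (a + 1)) (hT : WinLe T (2 ^ w)) (hF : ∀ n, repF T n ≤ F)
    (hFe : F ≤ 2 ^ e) (N : ℕ) (hN : N = 2 ^ (4 * (a + u) + 8 * u' + 1)) (n : ℕ) (hn : n < N) :
    ∃ W : ℕ, (∀ z, n / q ^ 4 ≤ z + 514 + 3 * 2 ^ (8 * u + 64 * e) →
        (win T z (2 ^ (8 * u + 64 * e))).card ≤ W) ∧
      (N : ℝ) * 4096 * (Real.exp (2 ^ (e + (Nat.log 2 n - (4 * a + (8 * u + 64 * e))) / 2) *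
        (((20 * a : ℕ) : ℝ) * ((2 ^ (4 * u + 8 * e) : ℕ) : ℝ) * W /
          ((2 ^ (8 * u + 64 * e) : ℕ) : ℝ))) /
        (2 ^ (e + (Nat.log 2 n - (4 * a + (8 * u + 64 * e))) / 2)) ^
          tD a e (Nat.log 2 n - (4 * a + (8 * u + 64 * e)))) < 1 / 8 := by
  set d := Nat.log 2 n - (4 * a + (8 * u + 64 * e)) with hd
  have hN6 : N * 4096 ≤ 2 ^ (6 * a) := by
    rw [hN, show (4096 : ℕ) = 2 ^ 12 by norm_num, ← pow_add]
    exact Nat.pow_le_pow_right (by norm_num) (by omega)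
  rcases Nat.lt_or_ge d 9 with hd9 | hd9
  · -- near the start of the world
    refine ⟨2 ^ (4 * u + 33 * e), ?_, ?_⟩
    · intro z _
      have h1 : (win T z (2 ^ (8 * u + 64 * e))).card ^ 2 ≤ 2 * 2 ^ (8 * u + 64 * e) * F :=
        Pool.Agent.Helper42.WR.window_bound T F (2 ^ (8 * u + 64 * e)) hF z
      have h2 : 2 * 2 ^ (8 * u + 64 * e) * F ≤ (2 ^ (4 * u + 33 * e)) ^ 2 := by
        calc 2 * 2 ^ (8 * u + 64 * e) * F ≤ 2 * 2 ^ (8 * u + 64 * e) * 2 ^ e :=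
              Nat.mul_le_mul_left _ hFe
          _ = 2 ^ (8 * u + 65 * e + 1) := by ring
          _ ≤ 2 ^ ((4 * u + 33 * e) * 2) := Nat.pow_le_pow_right (by norm_num) (by omega)
          _ = (2 ^ (4 * u + 33 * e)) ^ 2 := by rw [pow_mul]
      exact (Nat.pow_le_pow_iff_left two_ne_zero).1 (h1.trans h2)
    · apply fin_bound (by omega) (by omega) hN6
      calc 2 ^ (e + d / 2) * (20 * a * 2 ^ (4 * u + 8 * e) * 2 ^ (4 * u + 33 * e))
          ≤ 2 ^ (e + 4) * (2 ^ e * 2 ^ (4 * u + 8 * e) * 2 ^ (4 * u + 33 * e)) := by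
            apply Nat.mul_le_mul
            · exact Nat.pow_le_pow_right (by norm_num) (by omega)
            · exact Nat.mul_le_mul_right _ (Nat.mul_le_mul_right _ h20)
        _ = 2 ^ (8 * u + 43 * e + 4) := by ring
        _ ≤ 2 ^ (8 * u + 64 * e) := Nat.pow_le_pow_right (by norm_num) (by omega)
  · -- far from the start of the world
    have hlog : Nat.log 2 n = 4 * a + (8 * u + 64 * e) + d := by omega
    have hn0 : n ≠ 0 := by
      rintro rfl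
      rw [Nat.log_zero_right] at hlog
      omega
    have hnl : 2 ^ (4 * a + (8 * u + 64 * e) + d) ≤ n := by
      rw [← hlog]
      exact Nat.pow_log_le_self 2 hn0
    have hdu : Nat.log 2 n < 4 * (a + u) + 8 * u' + 1 := by
      apply Nat.log_lt_of_lt_pow hn0
      rw [← hN]
      exact hn
    have hdu' : d ≤ 6 * u := by omega
    refine ⟨2 ^ (w + (4 * u + 32 * e + 4 - d / 2)), ?_, ?_⟩
    · intro z hz
      have hq0 : 0 < q ^ 4 := by
        apply Nat.pow_pos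
        omega
      have hq4 : q ^ 4 ≤ 2 ^ (4 * a + 4) := by
        calc q ^ 4 ≤ (2 ^ (a + 1)) ^ 4 := Nat.pow_le_pow_left hq2 4
          _ = 2 ^ (4 * a + 4) := by rw [← pow_mul]; congr 1; ring
      have h1 : 2 ^ (8 * u + 64 * e + d - 4) ≤ n / q ^ 4 := by
        rw [Nat.le_div_iff_mul_le hq0]
        calc 2 ^ (8 * u + 64 * e + d - 4) * q ^ 4
            ≤ 2 ^ (8 * u + 64 * e + d - 4) * 2 ^ (4 * a + 4) := Nat.mul_le_mul_left _ hq4
          _ = 2 ^ (4 * a + (8 * u + 64 * e) + d) := by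
              rw [← pow_add]
              congr 1
              omega
          _ ≤ n := hnl
      have h2 : 2 ^ (8 * u + 64 * e + d - 4) = 2 * 2 ^ (8 * u + 64 * e + d - 5) := by
        rw [← pow_succ']
        congr 1
        omega
      have h3 : 16 * 2 ^ (8 * u + 64 * e) ≤ 2 ^ (8 * u + 64 * e + d - 5) := by
        rw [show (16 : ℕ) = 2 ^ 4 by norm_num, ← pow_add]
        exact Nat.pow_le_pow_right (by norm_num) (by omega)
      have h4 : 2 ^ 6 ≤ 2 ^ (8 * u + 64 * e) := Nat.pow_le_pow_right (by norm_num) (by omega)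
      have h5 : 2 ^ (8 * u + 64 * e + d - 5) ≤ z := by
        norm_num at h4
        omega
      have hl : 8 * u + 64 * e + d - 5 ≤ Nat.log 2 z := Nat.le_log_of_pow_le (by norm_num) h5
      set l := Nat.log 2 z / 2 with hl'
      have hl0 : 4 * u + 32 * e + d / 2 - 3 ≤ l := by omega
      have h6 := hT z (2 ^ (8 * u + 64 * e))
      rw [← hl'] at h6
      have h7 : 2 ^ (8 * u + 64 * e) ≤ 2 ^ (4 * u + 32 * e + 3 - d / 2) * 2 ^ l := by
        rw [← pow_add]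
        exact Nat.pow_le_pow_right (by norm_num) (by omega)
      have h8 : 2 ^ (4 * u + 32 * e + 3 - d / 2) + 1 ≤ 2 ^ (4 * u + 32 * e + 4 - d / 2) := by
        have e1 : 2 ^ (4 * u + 32 * e + 4 - d / 2) = 2 * 2 ^ (4 * u + 32 * e + 3 - d / 2) := by
          rw [← pow_succ']
          congr 1
          omega
        have e2 : 1 ≤ 2 ^ (4 * u + 32 * e + 3 - d / 2) := Nat.one_le_two_pow
        omega
      have h9 : (win T z (2 ^ (8 * u + 64 * e))).card * 2 ^ l ≤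
          2 ^ (w + (4 * u + 32 * e + 4 - d / 2)) * 2 ^ l := by
        calc (win T z (2 ^ (8 * u + 64 * e))).card * 2 ^ l
            ≤ 2 ^ w * (2 ^ (8 * u + 64 * e) + 2 ^ l) := h6
          _ ≤ 2 ^ w * (2 ^ (4 * u + 32 * e + 3 - d / 2) * 2 ^ l + 2 ^ l) :=
              Nat.mul_le_mul_left _ (Nat.add_le_add_right h7 _)
          _ = 2 ^ w * (2 ^ (4 * u + 32 * e + 3 - d / 2) + 1) * 2 ^ l := by ring
          _ ≤ 2 ^ w * 2 ^ (4 * u + 32 * e + 4 - d / 2) * 2 ^ l :=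
              Nat.mul_le_mul_right _ (Nat.mul_le_mul_left _ h8)
          _ = 2 ^ (w + (4 * u + 32 * e + 4 - d / 2)) * 2 ^ l := by rw [← pow_add]
      exact Nat.le_of_mul_le_mul_right h9 (Nat.two_pow_pos _)
    · apply fin_bound (by omega) (by omega) hN6
      calc 2 ^ (e + d / 2) * (20 * a * 2 ^ (4 * u + 8 * e) *
            2 ^ (w + (4 * u + 32 * e + 4 - d / 2)))
          ≤ 2 ^ (e + d / 2) * (2 ^ e * 2 ^ (4 * u + 8 * e) *
            2 ^ (w + (4 * u + 32 * e + 4 - d / 2))) :=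
            Nat.mul_le_mul_left _ (Nat.mul_le_mul_right _ (Nat.mul_le_mul_right _ h20))
        _ = 2 ^ (e + d / 2 + (e + (4 * u + 8 * e) + (w + (4 * u + 32 * e + 4 - d / 2)))) := by
            rw [← pow_add, ← pow_add, ← pow_add]
        _ ≤ 2 ^ (8 * u + 64 * e) := Nat.pow_le_pow_right (by norm_num) (by omega)

end Pool.Agent.Helper39.FM
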